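import Mathlib
set_option autoImplicit false

/-!
# The curse of dimensionality for the generalized `L₁`-discrepancy with non-negative weights

For non-negative quadrature formulas the minimal worst-case error on the space `F_{d,∞}`, which is the
generalized `L₁`-discrepancy, can be reduced by a fixed factor only with exponentially many nodes.
-/

namespace Pool.Agent.Results.MP_2335a4_an.CurseLOne

open MeasureTheory Filter Set

/-- The nodes `t k` lie in `[0,1)^d` and the weights `a k` are non-negative. -/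
def IsFormula {d N : ℕ} (a : Fin N → ℝ) (t : Fin N → Fin d → ℝ) : Prop :=
  (∀ k, 0 ≤ a k) ∧ ∀ k i, 0 ≤ t k i ∧ t k i < 1

/-- The worst-case error `e(A)` of the quadrature formula, that is its generalized
`L₁`-discrepancy. -/
noncomputable def err {d N : ℕ} (a : Fin N → ℝ) (t : Fin N → Fin d → ℝ) : ℝ :=
  ∫ x in Icc (0 : Fin d → ℝ) 1, |(∑ k, a k * (if ∀ i, t k i < x i then 1 else 0)) - ∏ i, x i|

/-- The minimal error `e⁺(N, d)` of non-negative formulas with `N` nodes. -/
noncomputable def minErr (N d : ℕ) : ℝ :=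
  sInf {e : ℝ | ∃ (a : Fin N → ℝ) (t : Fin N → Fin d → ℝ), IsFormula a t ∧ e = err a t}

/-- The curse of dimensionality: there are `ε > 0` and `C > 1` such that for infinitely many `d` every
`N` with `e⁺(N, d) ≤ ε 2^{-d}` is at least `C ^ d`, that is, `N⁺(ε, d) ≥ C ^ d`. -/
def Curse : Prop :=
  ∃ ε : ℝ, 0 < ε ∧ ∃ C : ℝ, 1 < C ∧ ∃ᶠ d : ℕ in atTop,
    ∀ N : ℕ, minErr N d ≤ ε * (1 / 2) ^ d → C ^ d ≤ N

/-! ### Functions of one variable -/

/-- the indicator function of `(τ, 1]` -/
noncomputable def uu (τ : ℝ) : ℝ → ℝ := (Ioc τ 1).indicator fun _ => 1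

/-- the square root on `(τ, 1]` -/
noncomputable def vv (τ : ℝ) : ℝ → ℝ := (Ioc τ 1).indicator fun x => x ^ (1 / 2 : ℝ)

/-- the identity on `(0, 1]` -/
noncomputable def hh : ℝ → ℝ := (Ioc 0 1).indicator fun x => x

theorem uu_int (τ : ℝ) : Integrable (uu τ) := by
  unfold uu
  rw [integrable_indicator_iff measurableSet_Ioc]
  exact integrableOn_const (by simp)

theorem vv_int {τ : ℝ} (h0 : 0 ≤ τ) (h1 : τ ≤ 1) : Integrable (vv τ) := by
  unfold vv
  rw [integrable_indicator_iff measurableSet_Ioc]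
  rw [← intervalIntegrable_iff_integrableOn_Ioc_of_le h1]
  exact intervalIntegral.intervalIntegrable_rpow (Or.inl (by norm_num))

theorem hh_int : Integrable hh := by
  unfold hh
  rw [integrable_indicator_iff measurableSet_Ioc]
  exact (continuous_id.integrableOn_Icc (a := 0) (b := 1)).mono_set Ioc_subset_Icc_self

theorem uu_val {τ : ℝ} (h1 : τ ≤ 1) : ∫ x, uu τ x = 1 - τ := by
  unfold uu
  rw [integral_indicator measurableSet_Ioc, setIntegral_const]
  simp [h1]

theorem vv_val {τ : ℝ} (h0 : 0 ≤ τ) (h1 : τ ≤ 1) : ∫ x, vv τ x = 2 / 3 * (1 - τ ^ (3 / 2 : ℝ)) := by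
  unfold vv
  rw [integral_indicator measurableSet_Ioc, ← intervalIntegral.integral_of_le h1,
    integral_rpow (Or.inl (by norm_num))]
  rw [Real.one_rpow]
  norm_num
  ring

theorem hh_val : ∫ x, hh x = 1 / 2 := by
  unfold hh
  rw [integral_indicator measurableSet_Ioc, ← intervalIntegral.integral_of_le zero_le_one, integral_id]
  norm_num

theorem uu_nonneg (τ x : ℝ) : 0 ≤ uu τ x := by
  unfold uu; exact indicator_nonneg (fun _ _ => zero_le_one) x

theorem vv_nonneg {τ : ℝ} (h0 : 0 ≤ τ) (x : ℝ) : 0 ≤ vv τ x := by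
  unfold vv
  exact indicator_nonneg (fun y hy => Real.rpow_nonneg (h0.trans hy.1.le) _) x

theorem hh_nonneg (x : ℝ) : 0 ≤ hh x := by
  unfold hh; exact indicator_nonneg (fun y hy => hy.1.le) x

/-- the basic inequality in one variable -/
theorem one_dim {τ : ℝ} (h0 : 0 ≤ τ) (h1 : τ < 1) :
    (2 / 3 * (1 - τ ^ (3 / 2 : ℝ))) ^ 2 ≤ 47 / 100 * (1 - τ) := by
  set u := Real.sqrt τ with hu
  have hu0 : 0 ≤ u := Real.sqrt_nonneg _
  have hu2 : u ^ 2 = τ := Real.sq_sqrt h0
  have hu1 : u < 1 := by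
    rw [hu, Real.sqrt_lt' one_pos]; simpa using h1
  have hr : τ ^ (3 / 2 : ℝ) = u ^ 3 := by
    rw [hu, Real.sqrt_eq_rpow, ← Real.rpow_natCast (τ ^ (1 / 2 : ℝ)) 3, ← Real.rpow_mul h0]
    norm_num
  rw [hr, ← hu2]
  -- (4/9)(1-u^3)^2 ≤ (47/100)(1-u^2)
  have key : (1 - u) * (1 + u + u ^ 2) ^ 2 ≤ 423 / 400 * (1 + u) := by
    nlinarith [sq_nonneg (u - 37 / 100), sq_nonneg (u ^ 2 - 14 / 100), mul_nonneg hu0 (sq_nonneg (u - 37 / 100)),
      mul_nonneg hu0 (sq_nonneg (u ^ 2 + u - 1 / 2)), mul_nonneg (mul_nonneg hu0 hu0) (sq_nonneg (u - 37 / 100)),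
      mul_nonneg hu0 (sub_nonneg.2 hu1.le), sq_nonneg (u ^ 2 - u * (37 / 100)),
      mul_nonneg (mul_nonneg hu0 (mul_nonneg hu0 hu0)) (sq_nonneg (u - 37 / 100))]
  have h3 : (2 / 3 * (1 - u ^ 3)) ^ 2 = 4 / 9 * ((1 - u) * ((1 - u) * (1 + u + u ^ 2) ^ 2)) := by ring
  have h4 : 47 / 100 * (1 - u ^ 2) = 4 / 9 * ((1 - u) * (423 / 400 * (1 + u))) := by ring
  rw [h3, h4]
  have := mul_le_mul_of_nonneg_left key (sub_nonneg.2 hu1.le)
  linarith

/-! ### Product functions -/

variable {d N : ℕ}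

/-- the indicator function of the box of a node -/
noncomputable def U (t : Fin d → ℝ) (x : Fin d → ℝ) : ℝ := ∏ i, uu (t i) (x i)

/-- the square root of the volume on the box of a node -/
noncomputable def W (t : Fin d → ℝ) (x : Fin d → ℝ) : ℝ := ∏ i, vv (t i) (x i)

/-- the volume -/
noncomputable def H (x : Fin d → ℝ) : ℝ := ∏ i, hh (x i)

theorem U_int (t : Fin d → ℝ) : Integrable (U t) := Integrable.fintype_prod fun i => uu_int (t i)

theorem W_int {t : Fin d → ℝ} (h : ∀ i, 0 ≤ t i ∧ t i < 1) : Integrable (W t) :=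
  Integrable.fintype_prod fun i => vv_int (h i).1 (h i).2.le

theorem H_int : Integrable (H (d := d)) := Integrable.fintype_prod fun _ => hh_int

theorem U_val {t : Fin d → ℝ} (h : ∀ i, 0 ≤ t i ∧ t i < 1) : ∫ x, U t x = ∏ i, (1 - t i) := by
  unfold U
  rw [integral_fintype_prod_volume_eq_prod]
  exact Finset.prod_congr rfl fun i _ => uu_val (h i).2.le

theorem W_val {t : Fin d → ℝ} (h : ∀ i, 0 ≤ t i ∧ t i < 1) :
    ∫ x, W t x = ∏ i, (2 / 3 * (1 - t i ^ (3 / 2 : ℝ))) := by
  unfold W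
  rw [integral_fintype_prod_volume_eq_prod]
  exact Finset.prod_congr rfl fun i _ => vv_val (h i).1 (h i).2.le

theorem H_val : ∫ x : Fin d → ℝ, H x = (1 / 2) ^ d := by
  unfold H
  rw [integral_fintype_prod_volume_eq_prod, hh_val]
  simp

theorem U_nonneg (t x : Fin d → ℝ) : 0 ≤ U t x := Finset.prod_nonneg fun _ _ => uu_nonneg _ _

theorem W_nonneg {t : Fin d → ℝ} (h : ∀ i, 0 ≤ t i ∧ t i < 1) (x : Fin d → ℝ) : 0 ≤ W t x :=
  Finset.prod_nonneg fun i _ => vv_nonneg (h i).1 _

theorem H_nonneg (x : Fin d → ℝ) : 0 ≤ H x := Finset.prod_nonneg fun _ _ => hh_nonneg _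

theorem U_cases {t : Fin d → ℝ} (h : ∀ i, 0 ≤ t i ∧ t i < 1) (x : Fin d → ℝ) :
    (U t x = 1 ∧ W t x = Real.sqrt (H x)) ∨ (U t x = 0 ∧ W t x = 0) := by
  by_cases hx : ∀ i, x i ∈ Ioc (t i) 1
  · left
    constructor
    · unfold U uu
      exact Finset.prod_eq_one fun i _ => indicator_of_mem (hx i) _
    · have h1 : W t x = ∏ i, (x i) ^ (1 / 2 : ℝ) := by
        unfold W vv
        exact Finset.prod_congr rfl fun i _ => indicator_of_mem (hx i) _
      have h2 : H x = ∏ i, x i := by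
        unfold H hh
        exact Finset.prod_congr rfl fun i _ => indicator_of_mem (show x i ∈ Ioc (0 : ℝ) 1 from ⟨(h i).1.trans_lt (hx i).1, (hx i).2⟩) _
      rw [h1, h2, Real.sqrt_eq_rpow, Real.finsetProd_rpow]
      exact fun i _ => ((h i).1.trans_lt (hx i).1).le
  · right
    push Not at hx
    obtain ⟨i, hi⟩ := hx
    constructor
    · unfold U uu
      exact Finset.prod_eq_zero (Finset.mem_univ i) (indicator_of_notMem hi _)
    · unfold W vv
      exact Finset.prod_eq_zero (Finset.mem_univ i) (indicator_of_notMem hi _)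

theorem err_eq (a : Fin N → ℝ) (t : Fin N → Fin d → ℝ) (h : IsFormula a t) :
    err a t = ∫ x, |∑ k, a k * U (t k) x - H x| := by
  unfold err
  rw [← integral_indicator measurableSet_Icc]
  have hae : ∀ᵐ x : Fin d → ℝ, ∀ i, x i ≠ 0 := by
    rw [ae_all_iff]
    intro i
    exact Measure.ae_eval_ne (fun _ : Fin d => (volume : Measure ℝ)) i (0 : ℝ)
  refine integral_congr_ae ?_
  filter_upwards [hae] with x hx0
  by_cases hx : x ∈ Icc (0 : Fin d → ℝ) 1
  · rw [indicator_of_mem hx]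
    have hx1 : ∀ i, 0 < x i ∧ x i ≤ 1 := fun i => ⟨lt_of_le_of_ne (hx.1 i) (hx0 i).symm, hx.2 i⟩
    have e1 : H x = ∏ i, x i := by
      unfold H hh
      exact Finset.prod_congr rfl fun i _ => indicator_of_mem (show x i ∈ Ioc (0 : ℝ) 1 from hx1 i) _
    have e2 : ∀ k, U (t k) x = if ∀ i, t k i < x i then 1 else 0 := by
      intro k
      by_cases hk : ∀ i, t k i < x i
      · rw [if_pos hk]
        unfold U uu
        exact Finset.prod_eq_one fun i _ => indicator_of_mem (show x i ∈ Ioc (t k i) 1 from ⟨hk i, (hx1 i).2⟩) _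
      · rw [if_neg hk]
        push Not at hk
        obtain ⟨i, hi⟩ := hk
        unfold U uu
        exact Finset.prod_eq_zero (Finset.mem_univ i) (indicator_of_notMem (fun h => absurd h.1 (not_lt.2 hi)) _)
    simp_rw [e1, e2]
  · rw [indicator_of_notMem hx]
    have : ∃ i, ¬ (0 ≤ x i ∧ x i ≤ 1) := by
      by_contra hcon
      push Not at hcon
      exact hx ⟨fun i => (hcon i).1, fun i => (hcon i).2⟩
    obtain ⟨i, hi⟩ := this
    have e1 : H x = 0 := by
      unfold H hh
      exact Finset.prod_eq_zero (Finset.mem_univ i) (indicator_of_notMem (fun h => hi ⟨h.1.le, h.2⟩) _)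
    have e2 : ∀ k, U (t k) x = 0 := by
      intro k
      unfold U uu
      exact Finset.prod_eq_zero (Finset.mem_univ i)
        (indicator_of_notMem (fun h' => hi ⟨(h.2 k i).1.trans h'.1.le, h'.2⟩) _)
    simp [e1, e2]

/-- the threshold of a node, `2 E`, where `E` is the mean of the square root of the volume -/
noncomputable def zz (t : Fin d → ℝ) : ℝ :=
  2 * ((∏ i, (2 / 3 * (1 - t i ^ (3 / 2 : ℝ)))) / ∏ i, (1 - t i))

theorem vol_pos {t : Fin d → ℝ} (h : ∀ i, 0 ≤ t i ∧ t i < 1) : 0 < ∏ i, (1 - t i) :=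
  Finset.prod_pos fun i _ => by linarith [(h i).2]

theorem zz_pos {t : Fin d → ℝ} (h : ∀ i, 0 ≤ t i ∧ t i < 1) : 0 < zz t := by
  unfold zz
  apply mul_pos two_pos
  apply div_pos _ (vol_pos h)
  refine Finset.prod_pos fun i _ => ?_
  have : t i ^ (3 / 2 : ℝ) < 1 := Real.rpow_lt_one (h i).1 (h i).2 (by norm_num)
  linarith

/-- **The main inequality.** -/
theorem main_ineq (a : Fin N → ℝ) (t : Fin N → Fin d → ℝ) (h : IsFormula a t) :
    (1 / 2) ^ d ≤ 5 * err a t + 8 * N * (47 / 100) ^ d := by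
  classical
  set bad : Finset (Fin N) := Finset.univ.filter fun k => 2 * zz (t k) ^ 2 < a k with hbad
  have hHi := H_int (d := d)
  have hUi : ∀ k, Integrable (U (t k)) := fun k => U_int _
  have hWi : ∀ k, Integrable (W (t k)) := fun k => W_int (h.2 k)
  have hgi : Integrable fun x => ∑ k, a k * U (t k) x := integrable_finsetSum _ fun k _ => (hUi k).const_mul _
  -- pointwise inequality
  have hpt : ∀ x : Fin d → ℝ, (1 / 2) * ∑ k ∈ bad, a k * (U (t k) x - W (t k) x / zz (t k)) ≤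
      |∑ k, a k * U (t k) x - H x| := by
    intro x
    by_cases hA : ∃ k ∈ bad, U (t k) x = 1 ∧ H x ≤ a k / 2
    · obtain ⟨k₀, hk₀, hU1, hHk⟩ := hA
      have h1 : a k₀ ≤ ∑ k, a k * U (t k) x := by
        have : a k₀ * U (t k₀) x ≤ ∑ k, a k * U (t k) x :=
          Finset.single_le_sum (f := fun k => a k * U (t k) x)
            (fun k _ => mul_nonneg (h.1 k) (U_nonneg _ _)) (Finset.mem_univ k₀)
        rwa [hU1, mul_one] at this
      have h2 : ∑ k ∈ bad, a k * (U (t k) x - W (t k) x / zz (t k)) ≤ ∑ k, a k * U (t k) x := by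
        calc _ ≤ ∑ k ∈ bad, a k * U (t k) x := by
              refine Finset.sum_le_sum fun k _ => mul_le_mul_of_nonneg_left ?_ (h.1 k)
              have : 0 ≤ W (t k) x / zz (t k) := div_nonneg (W_nonneg (h.2 k) x) (zz_pos (h.2 k)).le
              linarith
          _ ≤ _ := Finset.sum_le_sum_of_subset_of_nonneg (Finset.subset_univ _)
              fun k _ _ => mul_nonneg (h.1 k) (U_nonneg _ _)
      refine le_trans ?_ (le_abs_self _)
      linarith
    · push Not at hA
      refine le_trans ?_ (abs_nonneg _)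
      refine mul_nonpos_of_nonneg_of_nonpos (by norm_num) (Finset.sum_nonpos fun k hk => ?_)
      refine mul_nonpos_of_nonneg_of_nonpos (h.1 k) ?_
      have hz := zz_pos (h.2 k)
      rcases U_cases (h.2 k) x with ⟨h1, h2⟩ | ⟨h1, h2⟩
      · rw [h1, h2]
        have h3 := hA k hk h1
        have h4 : 2 * zz (t k) ^ 2 < a k := (Finset.mem_filter.1 hk).2
        have h5 : zz (t k) ≤ Real.sqrt (H x) := by
          apply Real.le_sqrt_of_sq_le
          linarith
        have : 1 ≤ Real.sqrt (H x) / zz (t k) := by rwa [one_le_div hz]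
        linarith
      · rw [h1, h2]; simp
  -- integrate
  have hI1 : (1 / 2) * ∑ k ∈ bad, a k * (∫ x, U (t k) x) * (1 / 2) ≤ err a t := by
    rw [err_eq a t h]
    have hTi : ∀ k ∈ bad, Integrable fun x => a k * (U (t k) x - W (t k) x / zz (t k)) := fun k _ =>
        ((hUi k).sub ((hWi k).div_const _)).const_mul _
    have e1 : ∫ x, (1 / 2) * ∑ k ∈ bad, a k * (U (t k) x - W (t k) x / zz (t k)) =
        (1 / 2) * ∑ k ∈ bad, a k * (∫ x, U (t k) x) * (1 / 2) := by
      rw [integral_const_mul, integral_finsetSum _ hTi]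
      congr 1
      refine Finset.sum_congr rfl fun k _ => ?_
      rw [integral_const_mul, integral_sub (hUi k) ((hWi k).div_const _), integral_div,
        U_val (h.2 k), W_val (h.2 k)]
      unfold zz
      have h1 := (vol_pos (h.2 k)).ne'
      have h2 : (∏ i, (2 / 3 * (1 - t k i ^ (3 / 2 : ℝ)))) ≠ 0 := by
        have h3 := zz_pos (h.2 k)
        intro h4
        unfold zz at h3
        rw [h4] at h3
        simp at h3
      generalize (∏ i, (2 / 3 * (1 - t k i ^ (3 / 2 : ℝ)))) = P at h2 ⊢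
      generalize (∏ i, (1 - t k i)) = V at h1 ⊢
      field_simp
      ring
    rw [← e1]
    refine integral_mono ?_ ?_ hpt
    · exact (integrable_finsetSum _ hTi).const_mul _
    · exact (hgi.sub hHi).abs
  -- good nodes
  have hgood : ∀ k, k ∉ bad → a k * (∫ x, U (t k) x) ≤ 8 * (47 / 100) ^ d := by
    intro k hk
    have h1 : a k ≤ 2 * zz (t k) ^ 2 := by
      by_contra hcon
      push Not at hcon
      exact hk (Finset.mem_filter.2 ⟨Finset.mem_univ _, hcon⟩)
    rw [U_val (h.2 k)]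
    have hv := vol_pos (h.2 k)
    calc a k * ∏ i, (1 - t k i) ≤ 2 * zz (t k) ^ 2 * ∏ i, (1 - t k i) :=
          mul_le_mul_of_nonneg_right h1 hv.le
      _ = 8 * ((∏ i, (2 / 3 * (1 - t k i ^ (3 / 2 : ℝ)))) ^ 2 / ∏ i, (1 - t k i)) := by
          unfold zz; field_simp; ring
      _ ≤ 8 * (47 / 100) ^ d := by
          apply mul_le_mul_of_nonneg_left _ (by norm_num)
          rw [div_le_iff₀ hv, ← Finset.prod_pow]
          have e : (47 / 100 : ℝ) ^ d = ∏ _i : Fin d, (47 / 100 : ℝ) := by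
            rw [Finset.prod_const, Finset.card_univ, Fintype.card_fin]
          rw [e, ← Finset.prod_mul_distrib]
          exact Finset.prod_le_prod (fun i _ => sq_nonneg _) fun i _ => one_dim (h.2 k i).1 (h.2 k i).2
  have hgoodsum : ∑ k ∈ Finset.univ.filter (fun k => ¬ 2 * zz (t k) ^ 2 < a k), a k * (∫ x, U (t k) x) ≤
      8 * N * (47 / 100) ^ d := by
    calc _ ≤ ∑ k ∈ Finset.univ.filter (fun k => ¬ 2 * zz (t k) ^ 2 < a k), 8 * (47 / 100 : ℝ) ^ d := by
          refine Finset.sum_le_sum fun k hk => hgood k ?_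
          intro hk'
          exact (Finset.mem_filter.1 hk).2 (Finset.mem_filter.1 hk').2
      _ ≤ ∑ _k : Fin N, 8 * (47 / 100 : ℝ) ^ d :=
          Finset.sum_le_sum_of_subset_of_nonneg (Finset.subset_univ _) fun _ _ _ => by positivity
      _ = 8 * N * (47 / 100) ^ d := by simp; ring
  -- total mass
  have htot : (1 / 2) ^ d - err a t ≤ ∑ k, a k * (∫ x, U (t k) x) := by
    have e1 : ∑ k, a k * (∫ x, U (t k) x) = ∫ x, ∑ k, a k * U (t k) x := by
      rw [integral_finsetSum _ fun k _ => (hUi k).const_mul _]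
      refine Finset.sum_congr rfl fun k _ => ?_
      rw [integral_const_mul]
    have hai : Integrable fun x => |∑ k, a k * U (t k) x - H x| := (hgi.sub hHi).abs
    rw [e1, err_eq a t h, ← H_val (d := d), ← integral_sub hHi hai]
    refine integral_mono (hHi.sub hai) hgi fun x => ?_
    have := neg_abs_le (∑ k, a k * U (t k) x - H x)
    simp only
    linarith
  rw [← Finset.sum_filter_add_sum_filter_not Finset.univ (fun k => 2 * zz (t k) ^ 2 < a k)] at htot
  have h5 : ∑ k ∈ bad, a k * (∫ x, U (t k) x) ≤ 4 * err a t := by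
    rw [← Finset.sum_mul] at hI1
    linarith
  linarith

theorem err_nonneg (a : Fin N → ℝ) (t : Fin N → Fin d → ℝ) : 0 ≤ err a t :=
  integral_nonneg fun _ => abs_nonneg _

/-- **Theorem.** Integration on `F_{d,∞}` (the case `p = 1`) with non-negative quadrature formulas
suffers from the curse of dimensionality. -/
theorem result : Curse := by
  refine ⟨1 / 20, by norm_num, 21 / 20, by norm_num, Eventually.frequently ?_⟩
  have h1 : Tendsto (fun d : ℕ => (1 / 16) * ((50 / 47 : ℝ) / (21 / 20)) ^ d) atTop atTop :=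
    (tendsto_pow_atTop_atTop_of_one_lt (by norm_num)).const_mul_atTop (by norm_num)
  filter_upwards [h1.eventually_ge_atTop 1] with d hd N hN
  have hne : {e : ℝ | ∃ (a : Fin N → ℝ) (t : Fin N → Fin d → ℝ), IsFormula a t ∧ e = err a t}.Nonempty :=
    ⟨_, fun _ => 0, fun _ _ => 0, ⟨fun _ => le_rfl, fun _ _ => ⟨le_rfl, one_pos⟩⟩, rfl⟩
  have hlt : minErr N d < 1 / 10 * (1 / 2) ^ d := by
    refine lt_of_le_of_lt hN ?_
    have : (0 : ℝ) < (1 / 2) ^ d := by positivity
    linarith
  obtain ⟨e, ⟨a, t, hf, rfl⟩, he⟩ := exists_lt_of_csInf_lt hne hlt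
  have h2 := main_ineq a t hf
  have h3 : (1 / 2 : ℝ) ^ d ≤ 16 * N * (47 / 100) ^ d := by linarith
  have h4 : (1 / 16) * (50 / 47 : ℝ) ^ d ≤ N := by
    have e1 : (50 / 47 : ℝ) ^ d * (47 / 100) ^ d = (1 / 2) ^ d := by rw [← mul_pow]; norm_num
    have h5 : (0 : ℝ) < (47 / 100) ^ d := by positivity
    have h6 : (1 / 16) * (50 / 47 : ℝ) ^ d * (47 / 100) ^ d ≤ N * (47 / 100) ^ d := by
      rw [mul_assoc, e1]; linarith
    exact le_of_mul_le_mul_right h6 h5
  rw [div_pow] at hd
  have h7 : (0 : ℝ) < (21 / 20) ^ d := by positivity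
  rw [← mul_div_assoc, one_le_div h7] at hd
  exact hd.trans h4

end Pool.Agent.Results.MP_2335a4_an.CurseLOne
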